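import Pool.Agent.H89.TRI.K.Core

/-!
Integer arithmetic on rows, nets and parameter tables, with recursors (evaluated by the kernel).
-/

namespace Pool.TRI.K

noncomputable def mp {α β : Type} (f : α → β) (l : List α) : List β :=
  List.rec (motive := fun _ => List β) [] (fun a _ ih => f a :: ih) l

noncomputable def zw {α β γ : Type} (f : α → β → γ) (l : List α) : List β → List γ :=
  List.rec (motive := fun _ => List β → List γ) (fun _ => [])
    (fun a _ ih m => List.rec (motive := fun _ => List γ) [] (fun b m' _ => f a b :: ih m') m) l

/-- as `zw`, but the longer list survives -/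
noncomputable def zl {α : Type} (f : α → α → α) (l : List α) : List α → List α :=
  List.rec (motive := fun _ => List α → List α) (fun m => m)
    (fun a l' ih m => List.rec (motive := fun _ => List α) (a :: l') (fun b m' _ => f a b :: ih m') m) l

/-- product of the polynomial `c` (coefficients in `κ`) and the polynomial `E` (coefficients in `β`) -/
noncomputable def cv {κ β γ : Type} (add : γ → γ → γ) (sm : κ → β → γ) (c : List κ) (E : List β) : List γ :=
  List.rec (motive := fun _ => List γ) []
    (fun c0 _ ih => List.rec (motive := fun _ => List γ) [] (fun e0 E' _ => sm c0 e0 :: zl add (mp (sm c0) E') ih) E) c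

abbrev Row := List ℤ
abbrev Net := List (List ℤ)

noncomputable def addR : Row → Row → Row := zw Int.add
noncomputable def subR : Row → Row → Row := zw Int.sub
noncomputable def smR (c : ℤ) : Row → Row := mp (Int.mul c)
noncomputable def addN : Net → Net → Net := zw addR
noncomputable def subN : Net → Net → Net := zw subR
noncomputable def smN (c : ℤ) : Net → Net := mp (smR c)

/-- `[n*l 0, (n+1)*l 1, ...]` -/
noncomputable def up (l : Row) : ℤ → Row :=
  List.rec (motive := fun _ => ℤ → Row) (fun _ => []) (fun c _ ih n => Int.mul n c :: ih (Int.add n 1)) l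

/-- `∂/∂y` of the binary form of a row -/
noncomputable def dyR (l : Row) : Row := List.rec (motive := fun _ => Row) [] (fun _ l' _ => up l' 1) l

/-- `∂/∂z` of the binary form of a row: drops the last entry; returns also the length -/
noncomputable def dzR (l : Row) : Row × ℤ :=
  List.rec (motive := fun _ => Row × ℤ) ([], 0)
    (fun c _ ih => Prod.rec (motive := fun _ => Row × ℤ)
      (fun m n => (Int.rec (motive := fun _ => Row) (fun k => Nat.rec (motive := fun _ => Row) [] (fun _ _ => Int.mul n c :: m) k) (fun _ => []) n,
        Int.add n 1)) ih) l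

/-- remove the last element -/
noncomputable def dl {α : Type} (l : List α) : List α :=
  List.rec (motive := fun _ => List α) [] (fun a l' ih => List.rec (motive := fun _ => List α) [] (fun _ _ _ => a :: ih) l') l

noncomputable def tl {α : Type} (l : List α) : List α := List.rec (motive := fun _ => List α) [] (fun _ l' _ => l') l

/-- rows multiplied by `n, n+1, ...` -/
noncomputable def upN (P : Net) : ℤ → Net :=
  List.rec (motive := fun _ => ℤ → Net) (fun _ => []) (fun r _ ih n => smR n r :: ih (Int.add n 1)) P

noncomputable def d1 (P : Net) : Net := upN (tl P) 1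
noncomputable def d2 (P : Net) : Net := dl (mp dyR P)
noncomputable def d3 (P : Net) : Net := dl (mp (fun r => Prod.fst (dzR r)) P)

noncomputable def D1 (P : Net) : Net := subN (d2 P) (d3 P)
noncomputable def D2 (P : Net) : Net := subN (d3 P) (d1 P)
noncomputable def D3 (P : Net) : Net := subN (d1 P) (d2 P)

/-- `(1 + y)^n` resp. `(y + z)^n` -/
noncomputable def binR (n : ℕ) : Row :=
  Nat.rec (motive := fun _ => Row) [1] (fun _ ih => cv Int.add Int.mul [1, 1] ih) n

/-- `(x1 + x2 + x3)^n` -/
noncomputable def sig (n : ℕ) : Net :=
  Nat.rec (motive := fun _ => Net) [[1]]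
    (fun _ ih => List.rec (motive := fun _ => Net) [] (fun r P' _ =>
      cv Int.add Int.mul [1, 1] r :: zl addR (mp (cv Int.add Int.mul [1, 1]) P') (r :: P')) ih) n

/-- parameter tables: outer index `s`, inner index `t` -/
abbrev Tab := List (List ℤ)

noncomputable def mulT : Tab → Tab → Tab := cv (zw Int.add) (cv Int.add Int.mul)
noncomputable def addT : Tab → Tab → Tab := zw (zw Int.add)
noncomputable def smT (c : ℤ) : Tab → Tab := mp (mp (Int.mul c))
/-- `(s+s')^a (t+t')^b` -/
noncomputable def oneT (a b : ℕ) : Tab := mp (fun c => mp (Int.mul c) (binR b)) (binR a)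

/-- table of integers times table of nets -/
noncomputable def mulTN : Tab → List (List Net) → List (List Net) :=
  cv (zw addN) (cv addN smN)
noncomputable def mapTN (f : Net → Net) : List (List Net) → List (List Net) := mp (mp f)
noncomputable def addTN : List (List Net) → List (List Net) → List (List Net) := zw (zw addN)
noncomputable def subTN : List (List Net) → List (List Net) → List (List Net) := zw (zw subN)
/-- table of integers times one net -/
noncomputable def tabN (T : Tab) (P : Net) : List (List Net) := mp (mp (fun c => smN c P)) T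

noncomputable def flat {α : Type} (T : List (List α)) : List α :=
  List.rec (motive := fun _ => List α) [] (fun l _ ih =>
    List.rec (motive := fun _ => List α) ih (fun a _ ih2 => a :: ih2) l) T

/-! ### packing -/

/-- `K + x` for `-K ≤ x` -/
noncomputable def off (K : ℕ) (x : ℤ) : ℕ :=
  Int.rec (motive := fun _ => ℕ) (fun n => Nat.add K n) (fun n => Nat.sub K (Nat.succ n)) x

noncomputable def allR {α : Type} (f : α → Bool) (l : List α) : Bool :=
  List.rec (motive := fun _ => Bool) true (fun a _ ih => Bool.rec (motive := fun _ => Bool) false ih (f a)) l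

noncomputable def bdN (K : ℕ) (P : Net) : Bool := allR (allR (fun x => Nat.ble (Int.natAbs x) K)) P

/-- `∑ (K + P k) W^k` -/
noncomputable def packN (K W : ℕ) (Ps : List Net) : List (List ℕ) :=
  List.rec (motive := fun _ => List (List ℕ)) [] (fun P Ps' ih =>
    List.rec (motive := fun _ => List (List ℕ)) (mp (mp (off K)) P)
      (fun _ _ _ => zw (zw (fun x y => Nat.add (off K x) (Nat.mul W y))) P ih) Ps') Ps

/-- net of ones (natural) -/
noncomputable def oneN (n : ℕ) : List (List ℕ) :=
  Nat.rec (motive := fun _ => List (List ℕ)) [] (fun k ih => (Nat.rec (motive := fun _ => List ℕ) [] (fun _ h => 1 :: h) (Nat.succ k)) :: ih) n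

/-- reorder a net from `(e1,e2,e3)` to `(e3,e1,e2)` -/
noncomputable def rev {α : Type} (l : List α) : List α :=
  List.rec (motive := fun _ => List α → List α) (fun acc => acc) (fun a _ ih acc => ih (a :: acc)) l []
noncomputable def toE3 {α : Type} (P : List (List α)) : List (List α) := tr (mp rev P)

/-- `rep m = ∑_{k<m} W^k` -/
noncomputable def repW (W m : ℕ) : ℕ := Nat.rec (motive := fun _ => ℕ) 0 (fun _ ih => Nat.succ (Nat.mul W ih)) m

/-- all nets of the list are nonnegative on the simplex (`deg` is the common degree) -/
noncomputable def posN (K w fuel deg : ℕ) (Ps : List Net) : Bool :=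
  Bool.rec (motive := fun _ => Bool) false
    (autoP (okC (Nat.mul 2 K) (Nat.pow 2 w) K (repW (Nat.pow 2 (Nat.succ w)) (List.length Ps))
        (Nat.mul (Nat.pow 2 w) (repW (Nat.pow 2 (Nat.succ w)) (List.length Ps)))) fuel 1 1 1
      (oneN (Nat.succ deg)) (toE3 (packN K (Nat.pow 2 (Nat.succ w)) Ps)))
    (allR (bdN K) Ps)

end Pool.TRI.K
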