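import Pool.Agent.H89.TRI.K.Alg

namespace Pool.TRI.K

/-! ### binary forms -/

noncomputable def packR (K W : ℕ) (Ps : List Row) : List ℕ :=
  List.rec (motive := fun _ => List ℕ) [] (fun P Ps' ih =>
    List.rec (motive := fun _ => List ℕ) (mp (off K) P)
      (fun _ _ _ => zw (fun x y => Nat.add (off K x) (Nat.mul W y)) P ih) Ps') Ps

noncomputable def autoB (f : ℕ → ℕ → Bool) (fuel : ℕ) : List ℕ → List ℕ → Bool :=
  Nat.rec (motive := fun _ => List ℕ → List ℕ → Bool) (fun O Q => okR f O Q)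
    (fun _ ih O Q =>
      Bool.rec (motive := fun _ => Bool)
        (Bool.rec (motive := fun _ => Bool) false (ih (row2 1 1 O) (row2 1 1 Q)) (ih (row1 1 1 O) (row1 1 1 Q)))
        true (okR f O Q)) fuel

/-- all rows of the list are nonnegative binary forms on the quadrant -/
noncomputable def posR (K w fuel deg : ℕ) (Ps : List Row) : Bool :=
  Bool.rec (motive := fun _ => Bool) false
    (autoB (okC (Nat.mul 2 K) (Nat.pow 2 w) K (repW (Nat.pow 2 (Nat.succ w)) (List.length Ps))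
        (Nat.mul (Nat.pow 2 w) (repW (Nat.pow 2 (Nat.succ w)) (List.length Ps)))) fuel
      (Nat.rec (motive := fun _ => List ℕ) [] (fun _ h => 1 :: h) (Nat.succ deg)) (packR K (Nat.pow 2 (Nat.succ w)) Ps))
    (allR (fun P => allR (fun x => Nat.ble (Int.natAbs x) K) P) Ps)

noncomputable def hd {α : Type} (d : α) (l : List α) : α := List.rec (motive := fun _ => α) d (fun a _ _ => a) l

/-! ### Rayleigh quotients -/

/-- `[0!, 1!, ..., n!]` with accumulator -/
noncomputable def facs (n : ℕ) : ℤ → ℤ → Row :=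
  Nat.rec (motive := fun _ => ℤ → ℤ → Row) (fun f _ => [f]) (fun _ ih f k => f :: ih (Int.mul f k) (Int.add k 1)) n

noncomputable def facAux (n : ℕ) : Row → Net :=
  Nat.rec (motive := fun _ => Row → Net) (fun f => [zw Int.mul f (rev f)]) (fun _ ih f => zw Int.mul f (rev f) :: ih (dl f)) n

/-- `i! j! (n-i-j)!` -/
noncomputable def facN (n : ℕ) : Net := zw smR (facs n 1 1) (facAux n (facs n 1 1))

noncomputable def dotR (r : Row) : Row → ℤ :=
  List.rec (motive := fun _ => Row → ℤ) (fun _ => 0)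
    (fun a _ ih m => List.rec (motive := fun _ => ℤ) 0 (fun b m' _ => Int.add (Int.mul a b) (ih m')) m) r

noncomputable def dotN (r : Net) : Net → ℤ :=
  List.rec (motive := fun _ => Net → ℤ) (fun _ => 0)
    (fun a _ ih m => List.rec (motive := fun _ => ℤ) 0 (fun b m' _ => Int.add (dotR a b) (ih m')) m) r

noncomputable def wRow (psi : Net) (n : ℕ) : Net → Row :=
  Nat.rec (motive := fun _ => Net → Row) (fun _ => []) (fun _ ih G => dotN psi G :: ih (mp tl G)) n

/-- `w β = ∑ ψ α * G (α + β)`, `|β| = e` -/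
noncomputable def wN (psi : Net) (e : ℕ) : Net → Net :=
  Nat.rec (motive := fun _ => Net → Net) (fun G => [wRow psi 1 G]) (fun k ih G => wRow psi (Nat.succ (Nat.succ k)) G :: ih (tl G)) e

/-- `x1 x2 x3 ψ`, `ψ` of degree `m` -/
noncomputable def zerosR (n : ℕ) : Row := Nat.rec (motive := fun _ => Row) [] (fun _ h => 0 :: h) n
noncomputable def snoc {α : Type} (l : List α) (x : α) : List α := List.rec (motive := fun _ => List α) [x] (fun a _ ih => a :: ih) l
noncomputable def m123 (m : ℕ) (psi : Net) : Net :=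
  zerosR (Nat.add m 4) :: snoc (snoc (mp (fun r => 0 :: snoc r 0) psi) [0, 0]) [0]

noncomputable def mpT {α β : Type} (f : α → β) : List (List α) → List (List β) := mp (mp f)

/-- energy table `-(I' (φ_a D_k^2 φ_b))` for the operator `Dk` -/
noncomputable def enT (Dk : Net → Net) (W F : List (List Net)) : Tab :=
  cv (zw Int.add) (cv Int.add (fun w f => Int.neg (dotN (Dk (Dk f)) w))) W F

/-! ### chart tables -/

/-- chart 0: `q^2 (1, 1 - u v, 1 - u)`; chart 1: `q^2 (u, 1-u, v - u(1-u))` -/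
noncomputable def chart (typ : Bool) (q U0 U1 V0 V1 : ℤ) : Tab × Tab × Tab :=
  Bool.rec (motive := fun _ => Tab × Tab × Tab)
    (mpT (Int.mul (Int.mul q q)) [[1, 1], [1, 1]],
     zw (zw Int.sub) (mpT (Int.mul (Int.mul q q)) [[1, 1], [1, 1]]) (mulT [[U0], [U1]] [[V0, V1]]),
     zw (zw Int.sub) (mpT (Int.mul (Int.mul q q)) [[1, 1], [1, 1]]) (mulT [[q]] (mulT [[1, 1]] [[U0], [U1]])))
    (mulT [[q], [q]] (mulT [[1, 1]] [[U0], [U1]]),
     zw (zw Int.sub) (mpT (Int.mul (Int.mul q q)) [[1, 1], [2, 2], [1, 1]]) (mulT [[q], [q]] (mulT [[1, 1]] [[U0], [U1]])),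
     addT (zw (zw Int.sub) (mulT [[q], [Int.mul 2 q], [q]] [[V0, V1]]) (mulT [[q], [q]] (mulT [[1, 1]] [[U0], [U1]])))
      (mulT [[1, 1]] (mulT [[U0], [U1]] [[U0], [U1]]))) typ

/-! ### decoding of literals -/

/-- `c1 x c2` table of nets with rows of length `n1, ..., 1` (`L` entries), digits of `X` in base `W`, shifted by `o` -/
noncomputable def decTN (W o n1 L c1 c2 X : ℕ) : List (List Net) :=
  mp (mp (toTri n1)) (chunks c2 c1 (chunks L (Nat.mul c1 c2) (mp (fun x => Int.subNatNat x o) (dig W (Nat.mul L (Nat.mul c1 c2)) X))))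

/-! ### the box check -/

/-- data of a box -/
structure BoxD where
  typ : Bool
  q : ℤ
  U0 : ℤ
  U1 : ℤ
  V0 : ℤ
  V1 : ℤ
  /-- degree of the supersolution minus 2 -/
  n : ℕ
  /-- common denominator -/
  D : ℤ
  /-- 3 x 3 table of nets of degree `n + 2` -/
  P : List (List Net)
  /-- `psi` has degree `m`, the trial function degree `m + 3` -/
  m : ℕ
  psi : List (List Net)
  /-- constants of the positivity checks: `K`, `w`, fuel -/
  K2 : ℕ
  w2 : ℕ
  f2 : ℕ
  Kb : ℕ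
  wb : ℕ
  fb : ℕ

/-- table of nets of `-q^2 (L_c p) - 2 q^2 D` -/
noncomputable def resid (typ : Bool) (q D : ℤ) (n : ℕ) (C1 C2 C3 : Tab) (P : List (List Net)) : List (List Net) :=
  mapTN (smN (-1)) (addTN (addTN (addTN (mulTN C1 (mapTN (fun A => D1 (D1 A)) P)) (mulTN C2 (mapTN (fun A => D2 (D2 A)) P)))
    (mulTN C3 (mapTN (fun A => D3 (D3 A)) P)))
    (tabN (smT (Int.mul 2 (Int.mul (Int.mul q q) D)) (Bool.rec (motive := fun _ => Tab) (oneT 3 3) (oneT 4 3) typ)) (sig n)))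

noncomputable def chk2 (b : BoxD) (C : Tab × Tab × Tab) : Bool :=
  posN b.K2 b.w2 b.f2 b.n (flat (resid b.typ b.q b.D b.n C.1 C.2.1 C.2.2 b.P))

/-- nonnegativity on the three edges -/
noncomputable def chkB (b : BoxD) : Bool :=
  Bool.rec (motive := fun _ => Bool) false
    (Bool.rec (motive := fun _ => Bool) false
      (posR b.Kb b.wb b.fb (b.n + 2) (mp (fun P => hd [] (toE3 P)) (flat b.P)))
      (posR b.Kb b.wb b.fb (b.n + 2) (mp (fun P => hd [] (tr P)) (flat b.P))))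
    (posR b.Kb b.wb b.fb (b.n + 2) (mp (fun P => hd [] P) (flat b.P)))

/-- energy table: `(2d)! q^2 ∑ c_k ∫ (D_k φ)^2`, `d = m + 3` -/
noncomputable def enTab (C : Tab × Tab × Tab) (m : ℕ) (psi : List (List Net)) : Tab :=
  (fun G => (fun W F => addT (addT (mulT C.1 (enT D1 W F)) (mulT C.2.1 (enT D2 W F))) (mulT C.2.2 (enT D3 W F)))
    (mpT (fun p => wN p (m + 1) G) psi) (mpT (m123 m) psi)) (mp tl (tl (facN (2 * m + 4))))

/-- mass table: `(2d+2)! ∫ φ^2` -/
noncomputable def maTab (m : ℕ) (psi : List (List Net)) : Tab :=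
  (fun G => cv (zw Int.add) (cv Int.add (fun w f => dotN f w)) (mpT (fun p => wN p m G) psi) psi)
    (mp (fun r => tl (tl r)) (tl (tl (facN (2 * m + 6)))))

/-- final inequality: `27 (2d+1)(2d+2) Mn * En < 8 pi^2 Md q^2 Ma` with `pi^2 > 98696044/10^7`;
`a, b` the bidegree excess -/
noncomputable def fin (Mn En Ma : Tab) (Md q : ℤ) (m : ℕ) (a b : ℕ) : Bool :=
  allR (allR (fun x => Int.rec (motive := fun _ => Bool) (fun k => Nat.blt 0 k) (fun _ => false) x))
    (zw (zw Int.sub) (mulT (smT (Int.mul (Int.mul 789568352 Md) (Int.mul q q)) (oneT a b)) Ma)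
      (smT (Int.mul 270000000 (Int.mul (2 * (m : ℤ) + 7) (2 * (m : ℤ) + 8))) (mulT Mn En)))

/-! ### mode Q: quadratic majorant near `x0 = (n1, n2, n3) / (n1 + n2 + n3)`, constant majorant away from it -/

noncomputable def and2 (a b : Bool) : Bool := Bool.rec (motive := fun _ => Bool) false b a

/-- nets in the order `(x0, v2, v3)`; `v3` has weight `wv` -/
noncomputable def nearFar (f : ℕ → ℕ → Bool) (be wv : ℕ) (O A B : List (List ℕ)) : Bool :=
  and2 (okN f (child2 wv be (tr O)) (child2 wv be (tr B)))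
    (and2 (okN f (child1 be 1 (child1 wv be (tr O))) (child1 be 1 (child1 wv be (tr B))))
      (and2 (okN f (child1 wv 1 (toE3 (child2 be 1 (child1 wv be (tr O))))) (child1 wv 1 (toE3 (child2 be 1 (child1 wv be (tr A))))))
        (okN f (child2 wv 1 (toE3 (child2 be 1 (child1 wv be (tr O))))) (child2 wv 1 (toE3 (child2 be 1 (child1 wv be (tr A))))))))

noncomputable def treeQ (f : ℕ → ℕ → Bool) (n1 n2 n3 be : ℕ) (O A B : List (List ℕ)) : Bool :=
  and2 (nearFar f be (Nat.add n2 n3) (child1 1 n1 (toE3 (child1 n2 n3 O))) (child1 1 n1 (toE3 (child1 n2 n3 A))) (child1 1 n1 (toE3 (child1 n2 n3 B))))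
    (and2 (nearFar f be 1 (child2 1 n1 (toE3 (child1 n2 n3 O))) (child2 1 n1 (toE3 (child1 n2 n3 A))) (child2 1 n1 (toE3 (child1 n2 n3 B))))
      (and2 (nearFar f be (Nat.add n2 n3) (child1 1 n1 (toE3 (child2 n2 n3 O))) (child1 1 n1 (toE3 (child2 n2 n3 A))) (child1 1 n1 (toE3 (child2 n2 n3 B))))
        (nearFar f be 1 (child2 1 n1 (toE3 (child2 n2 n3 O))) (child2 1 n1 (toE3 (child2 n2 n3 A))) (child2 1 n1 (toE3 (child2 n2 n3 B))))))

noncomputable def mulN : Net → Net → Net := cv (zw Int.add) (cv Int.add Int.mul)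

/-- `(n1+n2+n3) x1 - n1 σ` -/
noncomputable def Y1 (n1 n2 n3 : ℤ) : Net := [[-n1, -n1], [n2 + n3]]
noncomputable def Y2 (n1 n2 n3 : ℤ) : Net := [[-n2, n1 + n3], [-n2]]

/-- data of a quadratic majorant -/
structure QD where
  n1 : ℕ
  n2 : ℕ
  n3 : ℕ
  be : ℕ
  mh : Tab
  g1 : Tab
  g2 : Tab
  u11 : ℤ
  u12 : ℤ
  u22 : ℤ
  Kq : ℕ
  wq : ℕ

noncomputable def majB (b : BoxD) (Q : QD) : List (List Net) := subTN (tabN Q.mh (sig (b.n + 2))) b.P

noncomputable def majA (b : BoxD) (Q : QD) : List (List Net) :=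
  addTN (addTN (majB b Q)
    (addTN (tabN Q.g1 (mulN (Y1 Q.n1 Q.n2 Q.n3) (sig (b.n + 1)))) (tabN Q.g2 (mulN (Y2 Q.n1 Q.n2 Q.n3) (sig (b.n + 1))))))
    (tabN (smT (-1) (oneT 2 2)) (mulN
      (addN (addN (smN Q.u11 (mulN (Y1 Q.n1 Q.n2 Q.n3) (Y1 Q.n1 Q.n2 Q.n3)))
        (smN (2 * Q.u12) (mulN (Y1 Q.n1 Q.n2 Q.n3) (Y2 Q.n1 Q.n2 Q.n3))))
        (smN Q.u22 (mulN (Y2 Q.n1 Q.n2 Q.n3) (Y2 Q.n1 Q.n2 Q.n3)))) (sig b.n)))

noncomputable def posQ (Q : QD) (deg : ℕ) (As Bs : List Net) : Bool :=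
  and2 (allR (bdN Q.Kq) As) (and2 (allR (bdN Q.Kq) Bs)
    (treeQ (okC (Nat.mul 2 Q.Kq) (Nat.pow 2 Q.wq) Q.Kq (repW (Nat.pow 2 (Nat.succ Q.wq)) (List.length As))
        (Nat.mul (Nat.pow 2 Q.wq) (repW (Nat.pow 2 (Nat.succ Q.wq)) (List.length As)))) Q.n1 Q.n2 Q.n3 Q.be
      (oneN (Nat.succ deg)) (packN Q.Kq (Nat.pow 2 (Nat.succ Q.wq)) As) (packN Q.Kq (Nat.pow 2 (Nat.succ Q.wq)) Bs)))

noncomputable def chkQ (b : BoxD) (Q : QD) : Bool := posQ Q (b.n + 2) (flat (majA b Q)) (flat (majB b Q))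

/-- `4 Δ` -/
noncomputable def del4 (Q : QD) : ℤ := 4 * (Q.u11 * Q.u22 - Q.u12 * Q.u12)

/-- numerator of the bound of the maximum, denominator `4 Δ D` -/
noncomputable def MnQ (Q : QD) : Tab :=
  addT (mulT (smT (del4 Q) (oneT 2 2)) Q.mh)
    (addT (smT Q.u22 (mulT Q.g1 Q.g1)) (addT (smT (-2 * Q.u12) (mulT Q.g1 Q.g2)) (smT Q.u11 (mulT Q.g2 Q.g2))))

/-- mode C: `p ≤ M / D` -/
noncomputable def chkM (b : BoxD) (M : Tab) (K w f : ℕ) : Bool :=
  posN K w f (b.n + 2) (flat (subTN (tabN M (sig (b.n + 2))) b.P))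

/-! ### shape checks -/

noncomputable def len {α : Type} (l : List α) : ℕ := List.rec (motive := fun _ => ℕ) 0 (fun _ _ ih => Nat.succ ih) l

/-- rows of length `n, n-1, ..., 1` -/
noncomputable def shN {α : Type} (n : ℕ) : List (List α) → Bool :=
  Nat.rec (motive := fun _ => List (List α) → Bool) (fun P => List.rec (motive := fun _ => Bool) true (fun _ _ _ => false) P)
    (fun k ih P => List.rec (motive := fun _ => Bool) false (fun r P' _ => and2 (Nat.beq (len r) (Nat.succ k)) (ih P')) P) n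

/-- `a` rows of length `b`, all entries satisfy `f` -/
noncomputable def rectB {α : Type} (a b : ℕ) (f : α → Bool) (T : List (List α)) : Bool :=
  and2 (Nat.beq (len T) a) (allR (fun r => and2 (Nat.beq (len r) b) (allR f r)) T)

noncomputable def posI (x : ℤ) : Bool := Int.rec (motive := fun _ => Bool) (fun k => Nat.blt 0 k) (fun _ => false) x

noncomputable def shape (b : BoxD) : Bool :=
  and2 (rectB 3 3 (shN (Nat.add b.n 3)) b.P) (and2 (rectB 2 2 (shN (Nat.add b.m 1)) b.psi)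
    (and2 (posI b.q) (and2 (posI b.D) (and2 (posI (Int.sub b.U1 b.U0)) (posI (Int.sub b.V1 b.V0))))))

noncomputable def chB (b : BoxD) : Tab × Tab × Tab := chart b.typ b.q b.U0 b.U1 b.V0 b.V1

/-- all checks of a box, mode C -/
structure OkC (b : BoxD) (M : Tab) (Km wm fm : ℕ) : Prop where
  s : shape b = true
  m : rectB 3 3 (fun _ => true) M = true
  c2 : chk2 b (chB b) = true
  cb : chkB b = true
  cm : chkM b M Km wm fm = true
  cf : fin M (enTab (chB b) b.m b.psi) (maTab b.m b.psi) b.D b.q b.m (Bool.rec (motive := fun _ => ℕ) 3 4 b.typ) 3 = true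

noncomputable def shapeQ (Q : QD) : Bool :=
  and2 (rectB 3 3 (fun _ => true) Q.mh) (and2 (rectB 3 3 (fun _ => true) Q.g1) (and2 (rectB 3 3 (fun _ => true) Q.g2)
    (and2 (Nat.blt 0 Q.n1) (and2 (Nat.blt 0 Q.n2) (and2 (Nat.blt 0 Q.n3) (and2 (Nat.blt 0 Q.be)
      (and2 (posI Q.u11) (posI (del4 Q)))))))))

/-- all checks of a box, mode Q -/
structure OkQ (b : BoxD) (Q : QD) : Prop where
  s : shape b = true
  m : shapeQ Q = true
  c2 : chk2 b (chB b) = true
  cb : chkB b = true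
  cq : chkQ b Q = true
  cf : fin (MnQ Q) (enTab (chB b) b.m b.psi) (maTab b.m b.psi) (Int.mul (del4 Q) b.D) b.q b.m
    (Bool.rec (motive := fun _ => ℕ) 5 6 b.typ) 5 = true

end Pool.TRI.K
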