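import Mathlib.Data.Nat.Notation
import Mathlib.Data.Int.Notation

/-!
Kernel-friendly list functions (written with recursors, evaluated by the kernel).

A ROW `l = [l 0, ..., l d]` is the binary form `∑ l j * y^j * z^(d-j)`.
A NET of degree `N` is the list of rows `P i`, `i = 0..N`, `P i` of length `N - i + 1`; it is the ternary form
`∑ P i j * x1^i * x2^j * x3^(N-i-j)`.
-/

namespace Pool.TRI.K

/-! ### naturals: the positivity checker -/

/-- `[g 0 + a*p, g 1 + a * g 0, ..., c + a * g last]` -/
noncomputable def stp (a c : ℕ) (g : List ℕ) : ℕ → List ℕ :=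
  List.rec (motive := fun _ => ℕ → List ℕ) (fun p => [Nat.add c (Nat.mul a p)])
    (fun x _ ih p => (Nat.add x (Nat.mul a p)) :: ih x) g

/-- row of `B(l)(y + a z, z)`, listed by ascending powers of `z` -/
noncomputable def shR (a : ℕ) (l : List ℕ) : List ℕ :=
  List.rec (motive := fun _ => List ℕ) [] (fun c _ ih => stp a c ih 0) l

/-- row of `B(l)(z, y + a z)`, listed by ascending powers of `z`, with accumulator -/
noncomputable def shL (a : ℕ) (l : List ℕ) : List ℕ → List ℕ :=
  List.rec (motive := fun _ => List ℕ → List ℕ) (fun acc => acc) (fun c _ ih acc => ih (stp a c acc 0)) l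

/-- multiply the `j`-th entry by `p * b^j` -/
noncomputable def scA (b : ℕ) (l : List ℕ) : ℕ → List ℕ :=
  List.rec (motive := fun _ => ℕ → List ℕ) (fun _ => []) (fun c _ ih p => (Nat.mul c p) :: ih (Nat.mul p b)) l

/-- multiply the `j`-th entry by `b^(d-j)`, `d = length - 1`; second component `b^length` -/
noncomputable def scD (b : ℕ) (l : List ℕ) : List ℕ × ℕ :=
  List.rec (motive := fun _ => List ℕ × ℕ) ([], 1)
    (fun c _ ih => Prod.rec (motive := fun _ => List ℕ × ℕ) (fun m p => ((Nat.mul c p) :: m, Nat.mul p b)) ih) l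

/-- rows of `B(l)(y + a z, b z)` by ascending powers of `z` -/
noncomputable def row1 (a b : ℕ) (l : List ℕ) : List ℕ :=
  Bool.rec (motive := fun _ => List ℕ) (shR a (Prod.fst (scD b l))) (shR a l) (Nat.beq b 1)

/-- rows of `B(l)(a z, y + b z)` by ascending powers of `z` -/
noncomputable def row2 (a b : ℕ) (l : List ℕ) : List ℕ :=
  Bool.rec (motive := fun _ => List ℕ) (shL b (scA a l 1) []) (shL b l []) (Nat.beq a 1)

/-- transpose of a triangular array -/
noncomputable def zc {α : Type} (r : List α) : List (List α) → List (List α) :=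
  List.rec (motive := fun _ => List (List α) → List (List α)) (fun _ => [])
    (fun c _ ih ts => List.rec (motive := fun _ => List (List α)) ([c] :: ih []) (fun t ts' _ => (c :: t) :: ih ts') ts) r

noncomputable def tr {α : Type} (P : List (List α)) : List (List α) :=
  List.rec (motive := fun _ => List (List α)) [] (fun r _ ih => zc r ih) P

/-- net of `P(v1, m, v2)` as a net in the order `(m, v1, v2)`, `m = a e2 + b e3`:
`child1 a b P (y1,y2,y3) = P(y2, y3 + a y1, b y1)` -/
noncomputable def child1 (a b : ℕ) (P : List (List ℕ)) : List (List ℕ) :=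
  tr (List.rec (motive := fun _ => List (List ℕ)) [] (fun r _ ih => row1 a b r :: ih) P)

/-- `child2 a b P (y1,y2,y3) = P(y2, a y1, y3 + b y1)` -/
noncomputable def child2 (a b : ℕ) (P : List (List ℕ)) : List (List ℕ) :=
  tr (List.rec (motive := fun _ => List (List ℕ)) [] (fun r _ ih => row2 a b r :: ih) P)

/-- `r ≤ q` entrywise (rows) -/
noncomputable def leR (r : List ℕ) : List ℕ → Bool :=
  List.rec (motive := fun _ => List ℕ → Bool) (fun _ => true)
    (fun c _ ih q => List.rec (motive := fun _ => Bool) false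
      (fun d q' _ => Bool.rec (motive := fun _ => Bool) false (ih q') (Nat.ble c d)) q) r

/-- `r ≤ q` entrywise (nets) -/
noncomputable def leN (r : List (List ℕ)) : List (List ℕ) → Bool :=
  List.rec (motive := fun _ => List (List ℕ) → Bool) (fun _ => true)
    (fun c _ ih q => List.rec (motive := fun _ => Bool) false
      (fun d q' _ => Bool.rec (motive := fun _ => Bool) false (ih q') (leR c d)) q) r

/-- `r ≤ q` for all `q` of the list -/
noncomputable def leA (r : List (List ℕ)) (qs : List (List (List ℕ))) : Bool :=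
  List.rec (motive := fun _ => Bool) true
    (fun q _ ih => Bool.rec (motive := fun _ => Bool) false ih (leN r q)) qs

noncomputable def mapN (f : List (List ℕ) → List (List ℕ)) (qs : List (List (List ℕ))) : List (List (List ℕ)) :=
  List.rec (motive := fun _ => List (List (List ℕ))) [] (fun q _ ih => f q :: ih) qs

/-- automatic bisection at the (normalised) midpoint of the last edge; `w1 w2 w3` are the weights of the vertices -/
noncomputable def auto (fuel : ℕ) : ℕ → ℕ → ℕ → List (List (List ℕ)) → List (List ℕ) → Bool :=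
  Nat.rec (motive := fun _ => ℕ → ℕ → ℕ → List (List (List ℕ)) → List (List ℕ) → Bool)
    (fun _ _ _ qs r => leA r qs)
    (fun _ ih w1 w2 w3 qs r =>
      Bool.rec (motive := fun _ => Bool)
        (Bool.rec (motive := fun _ => Bool) false
          (ih (Nat.add (Nat.mul (Nat.div w3 (Nat.gcd w2 w3)) w2) (Nat.mul (Nat.div w2 (Nat.gcd w2 w3)) w3)) w1 w3
            (mapN (child2 (Nat.div w3 (Nat.gcd w2 w3)) (Nat.div w2 (Nat.gcd w2 w3))) qs)
            (child2 (Nat.div w3 (Nat.gcd w2 w3)) (Nat.div w2 (Nat.gcd w2 w3)) r))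
          (ih (Nat.add (Nat.mul (Nat.div w3 (Nat.gcd w2 w3)) w2) (Nat.mul (Nat.div w2 (Nat.gcd w2 w3)) w3)) w1 w2
            (mapN (child1 (Nat.div w3 (Nat.gcd w2 w3)) (Nat.div w2 (Nat.gcd w2 w3))) qs)
            (child1 (Nat.div w3 (Nat.gcd w2 w3)) (Nat.div w2 (Nat.gcd w2 w3)) r)))
        true (leA r qs)) fuel

end Pool.TRI.K

namespace Pool.TRI.K

/-! ### decoding of literals -/

/-- `n` digits of `X` in base `W`, lowest first -/
noncomputable def dig (W n : ℕ) : ℕ → List ℕ :=
  Nat.rec (motive := fun _ => ℕ → List ℕ) (fun _ => []) (fun _ ih X => (Nat.mod X W) :: ih (Nat.div X W)) n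

noncomputable def takeR {α : Type} (n : ℕ) : List α → List α :=
  Nat.rec (motive := fun _ => List α → List α) (fun _ => [])
    (fun _ ih l => List.rec (motive := fun _ => List α) [] (fun c l' _ => c :: ih l') l) n

noncomputable def dropR {α : Type} (n : ℕ) : List α → List α :=
  Nat.rec (motive := fun _ => List α → List α) (fun l => l)
    (fun _ ih l => List.rec (motive := fun _ => List α) [] (fun _ l' _ => ih l') l) n

/-- triangular array with rows of length `n, n-1, ..., 1` -/
noncomputable def toTri {α : Type} (n : ℕ) : List α → List (List α) :=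
  Nat.rec (motive := fun _ => List α → List (List α)) (fun _ => [])
    (fun k ih l => takeR (Nat.succ k) l :: ih (dropR (Nat.succ k) l)) n

/-- `m` lists of length `n` -/
noncomputable def chunks {α : Type} (n m : ℕ) : List α → List (List α) :=
  Nat.rec (motive := fun _ => List α → List (List α)) (fun _ => [])
    (fun _ ih l => takeR n l :: ih (dropR n l)) m

end Pool.TRI.K

namespace Pool.TRI.K

/-! ### packed version: several nets in one net of large naturals, base `W = 2 * H` -/

/-- leaf test of one coefficient: `o` coefficient of the unit net, `z` packed coefficient -/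
noncomputable def okC (K2 H K rep msk o z : ℕ) : Bool :=
  Bool.rec (motive := fun _ => Bool) false
    (Nat.beq (Nat.land (Nat.add z (Nat.mul (Nat.sub H (Nat.mul K o)) rep)) msk) msk)
    (Nat.ble (Nat.succ (Nat.mul K2 o)) H)

noncomputable def okR (f : ℕ → ℕ → Bool) (r : List ℕ) : List ℕ → Bool :=
  List.rec (motive := fun _ => List ℕ → Bool) (fun _ => true)
    (fun c _ ih q => List.rec (motive := fun _ => Bool) false
      (fun d q' _ => Bool.rec (motive := fun _ => Bool) false (ih q') (f c d)) q) r

noncomputable def okN (f : ℕ → ℕ → Bool) (r : List (List ℕ)) : List (List ℕ) → Bool :=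
  List.rec (motive := fun _ => List (List ℕ) → Bool) (fun _ => true)
    (fun c _ ih q => List.rec (motive := fun _ => Bool) false
      (fun d q' _ => Bool.rec (motive := fun _ => Bool) false (ih q') (okR f c d)) q) r

noncomputable def autoP (f : ℕ → ℕ → Bool) (fuel : ℕ) : ℕ → ℕ → ℕ → List (List ℕ) → List (List ℕ) → Bool :=
  Nat.rec (motive := fun _ => ℕ → ℕ → ℕ → List (List ℕ) → List (List ℕ) → Bool)
    (fun _ _ _ O Q => okN f O Q)
    (fun _ ih w1 w2 w3 O Q =>
      Bool.rec (motive := fun _ => Bool)
        (Bool.rec (motive := fun _ => Bool) false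
          (ih (Nat.add (Nat.mul (Nat.div w3 (Nat.gcd w2 w3)) w2) (Nat.mul (Nat.div w2 (Nat.gcd w2 w3)) w3)) w1 w3
            (child2 (Nat.div w3 (Nat.gcd w2 w3)) (Nat.div w2 (Nat.gcd w2 w3)) O)
            (child2 (Nat.div w3 (Nat.gcd w2 w3)) (Nat.div w2 (Nat.gcd w2 w3)) Q))
          (ih (Nat.add (Nat.mul (Nat.div w3 (Nat.gcd w2 w3)) w2) (Nat.mul (Nat.div w2 (Nat.gcd w2 w3)) w3)) w1 w2
            (child1 (Nat.div w3 (Nat.gcd w2 w3)) (Nat.div w2 (Nat.gcd w2 w3)) O)
            (child1 (Nat.div w3 (Nat.gcd w2 w3)) (Nat.div w2 (Nat.gcd w2 w3)) Q)))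
        true (okN f O Q)) fuel

end Pool.TRI.K
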